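import Pool.Agent.ES13.Final

/-!
# `f_c(n) ≤ 2 ^ (n + O(√n))`

The Erdős–Szekeres function `f_c` of simple allowable sequences (definitions in
`Pool.Agent.ES13.ADef`: `IsMove`, `Reverses`, `Allowable`, `Simple`, `ConvexPosition`, `fc`)
satisfies `f_c(n) ≤ 2 ^ (n + 20000 √n)`. (The constant `20000` is not optimised. The same bound for
planar point sets in general position is proved in `Pool.Agent.ES13.Points`.)

Idea of the proof: a simple allowable sequence gives an orientation of the triples which satisfies
the signotope axiom for the initial order. Take a cap (or cup) skeleton with about `√n` gaps and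
large parts in the gaps (product form of the positive fraction theorem). Inside every part take a
second skeleton with respect to the order of the part around the right end of its base. With
respect to the two orders of the part (around both ends of its base) the second skeleton is
monotone, and the lengths of the eight kinds of chains of a part of the second level (steep or flat,
clockwise or counterclockwise, inwards or outwards) enter two counting inequalities whose average is
controlled by chains of the first and of the second level that can be united to convex sets.
-/

set_option autoImplicit false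

namespace Pool.Agent.Results.MP_d79f1f_co.SqrtExponent

open ES13

/-- **Upper bound `2 ^ (n + 20000 √n)`** for the Erdős–Szekeres function of simple allowable
sequences. -/
theorem result :
    (∀ n N : ℕ, 3 ≤ n → (2 : ℝ) ^ ((n : ℝ) + 20000 * Real.sqrt n) < N →
      ∀ π : ℤ → Equiv.Perm (Fin N), Allowable π → Simple π →
        ∃ S : Finset (Fin N), S.card = n ∧ ConvexPosition π S) ∧
    (∀ n : ℕ, 3 ≤ n →
      IsLeast {F : ℕ | ∀ N : ℕ, F < N → ∀ π : ℤ → Equiv.Perm (Fin N), Allowable π → Simple π →
        ∃ S : Finset (Fin N), S.card = n ∧ ConvexPosition π S} (fc n) ∧
      (fc n : ℝ) ≤ (2 : ℝ) ^ ((n : ℝ) + 20000 * Real.sqrt n)) := by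
  refine ⟨fun n N hn hN π h hs => large_convex n N hn hN π h hs, ?_⟩
  intro n hn
  exact ⟨⟨Nat.sInf_mem ⟨_, floor_mem n hn⟩, fun F hF => Nat.sInf_le hF⟩, fc_le n hn⟩

end Pool.Agent.Results.MP_d79f1f_co.SqrtExponent
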